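import Pool.Agent.Lib_helper83.AlphaExample

/-!
# MP_c7dc48_pr: uniform convergence of empirical means fails for α-mixing inputs

There is a stationary random walk on an abelian group, started from the invariant distribution
`P0`, with `α(k) ≤ 2^(-k)` for all `k`, and a countably infinite family of measurable sets whose
relative frequencies converge uniformly in probability for independent inputs of law `P0`, but for
which, along the walk, `sup |relative frequency - probability| ≥ 1 - 1/m` almost surely, for every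
sample size `m`.
-/

set_option autoImplicit false

namespace Pool.Agent.Results.MP_c7dc48_pr.AlphaMixingWalk

open MeasureTheory Filter Topology
open scoped ENNReal

section definitions

universe u

variable {X : Type u} [MeasurableSpace X]

/-- The coordinate `X_i`, `i = 1, 2, ...`, on `X^∞` (sequences are stored from the index `0` on). -/
def coord (i : ℕ) (x : ℕ → X) : X := x (i - 1)

/-- `P` is the law of a stationary process. -/
def Stationary (P : Measure (ℕ → X)) : Prop :=
  P.map (fun (x : ℕ → X) (n : ℕ) => x (n + 1)) = P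

/-- `σ(X_1, ..., X_j)` -/
def past (X : Type u) [MeasurableSpace X] (j : ℕ) : MeasurableSpace (ℕ → X) :=
  ⨆ (i : ℕ) (_ : 1 ≤ i ∧ i ≤ j), MeasurableSpace.comap (coord i) inferInstance

/-- `σ(X_n, X_(n+1), ...)` -/
def future (X : Type u) [MeasurableSpace X] (n : ℕ) : MeasurableSpace (ℕ → X) :=
  ⨆ (i : ℕ) (_ : 1 ≤ i ∧ n ≤ i), MeasurableSpace.comap (coord i) inferInstance

/-- The strong mixing coefficient `α(k)` of a probability measure `P` on `X^∞`. -/
noncomputable def alpha (P : Measure (ℕ → X)) (k : ℕ) : ℝ :=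
  sSup {a : ℝ | ∃ (j : ℕ) (A B : Set (ℕ → X)), 1 ≤ j ∧ MeasurableSet[past X j] A ∧
    MeasurableSet[future X (j + k)] B ∧ a = |P.real (A ∩ B) - P.real A * P.real B|}

/-- `sup_(f ∈ F) |Ê_m(f; x) - E(f, P0)|` -/
noncomputable def dev (F : Set (X → ℝ)) (P0 : Measure X) (m : ℕ) (x : ℕ → X) : ℝ :=
  ⨆ f : F, |(1 / (m : ℝ)) * ∑ i ∈ Finset.Icc 1 m, f.1 (coord i x) - ∫ y, f.1 y ∂P0|

/-- `q(m, ε, Q)`, an outer measure -/
noncomputable def q (F : Set (X → ℝ)) (P0 : Measure X) (m : ℕ) (ε : ℝ) (Q : Measure (ℕ → X)) :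
    ℝ≥0∞ := Q {x | ε < dev F P0 m x}

/-- `F` has the property of uniform convergence of empirical means under `Q`. -/
def UCEM (F : Set (X → ℝ)) (P0 : Measure X) (Q : Measure (ℕ → X)) : Prop :=
  ∀ ε : ℝ, 0 < ε → Tendsto (fun m : ℕ => q F P0 m ε Q) atTop (𝓝 0)

/-- the indicator functions of the sets in `𝒟` -/
def indicators (𝒟 : Set (Set X)) : Set (X → ℝ) := {f | ∃ D ∈ 𝒟, f = D.indicator fun _ => 1}

/-- The law of the random walk `x, x + s_1, x + s_1 + s_2, ...`, where `x` has the law `P0`, the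
`s_i` have the law `ν`, all independent. -/
noncomputable def walk [AddCommGroup X] (P0 ν : Measure X) [SigmaFinite P0]
    [IsProbabilityMeasure ν] : Measure (ℕ → X) :=
  (P0.prod (Measure.infinitePi fun _ : ℕ => ν)).map fun w n => w.1 + ∑ i ∈ Finset.range n, w.2 i

end definitions

open Pool.Agent.Lib_helper83 Pool.Agent.Lib_helper83.Alpha

/-- the sets -/
def DD : Set (Set St) := {D | ∃ (κ : ℕ) (c : Idx κ), D = Dset κ c}

theorem ff_eq (κ : ℕ) (c : Idx κ) : ff κ c = (Dset κ c).indicator fun _ => 1 := by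
  classical
  funext x
  unfold ff
  rw [Set.indicator_apply]

theorem indicators_DD : indicators DD = FF := by
  ext f
  constructor
  · rintro ⟨D, ⟨κ, c, rfl⟩, rfl⟩
    exact ⟨κ, c, (ff_eq κ c).symm⟩
  · rintro ⟨κ, c, rfl⟩
    exact ⟨Dset κ c, ⟨κ, c, rfl⟩, ff_eq κ c⟩

theorem DD_countable : DD.Countable := by
  have h : DD = ⋃ κ : ℕ, Set.range fun c : Idx κ => Dset κ c := by
    ext D
    simp only [DD, Set.mem_ofPred_eq, Set.mem_iUnion, Set.mem_range]
    constructor
    · rintro ⟨κ, c, rfl⟩; exact ⟨κ, c, rfl⟩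
    · rintro ⟨κ, c, rfl⟩; exact ⟨κ, c, rfl⟩
  rw [h]
  exact Set.countable_iUnion fun κ => Set.countable_range _

theorem DD_infinite : DD.Infinite := by
  intro hfin
  apply FF_infinite
  rw [← indicators_DD]
  have h : indicators DD = (fun D : Set St => D.indicator fun _ => (1 : ℝ)) '' DD := by
    ext f
    constructor
    · rintro ⟨D, hD, rfl⟩; exact ⟨D, hD, rfl⟩
    · rintro ⟨D, hD, rfl⟩; exact ⟨D, hD, rfl⟩
  rw [h]
  exact hfin.image _

/-- the mean over the first `m` coordinates -/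
theorem sum_coord {X : Type} (g : X → ℝ) (m : ℕ) (x : ℕ → X) :
    ∑ i ∈ Finset.Icc 1 m, g (x (i - 1)) = ∑ i ∈ Finset.range m, g (x i) := by
  induction m with
  | zero => simp
  | succ m ih =>
    rw [Finset.sum_Icc_succ_top (by omega), Finset.sum_range_succ, ih]
    rfl

theorem bound (f : FF) (m : ℕ) (x : ℕ → St) :
    |(1 / (m : ℝ)) * ∑ i ∈ Finset.Icc 1 m, f.1 (coord i x) - ∫ y, f.1 y ∂LAM| ≤ 1 := by
  obtain ⟨f, κ, c, rfl⟩ := f
  have h1 : ∀ y, 0 ≤ ff κ c y ∧ ff κ c y ≤ 1 := ff_bounds κ c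
  have h2 : 0 ≤ ∑ i ∈ Finset.Icc 1 m, ff κ c (coord i x) := Finset.sum_nonneg fun i _ => (h1 _).1
  have h3 : ∑ i ∈ Finset.Icc 1 m, ff κ c (coord i x) ≤ m := by
    calc ∑ i ∈ Finset.Icc 1 m, ff κ c (coord i x) ≤ ∑ i ∈ Finset.Icc 1 m, (1 : ℝ) :=
          Finset.sum_le_sum fun i _ => (h1 _).2
      _ = m := by simp
  have h4 : 0 ≤ (1 / (m : ℝ)) * ∑ i ∈ Finset.Icc 1 m, ff κ c (coord i x) := by positivity
  have h5 : (1 / (m : ℝ)) * ∑ i ∈ Finset.Icc 1 m, ff κ c (coord i x) ≤ 1 := by
    rcases Nat.eq_zero_or_pos m with rfl | hm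
    · simp
    · have hm' : (0 : ℝ) < m := by exact_mod_cast hm
      rw [one_div, inv_mul_le_iff₀ hm']
      linarith
  have h6 : (0 : ℝ) ≤ LAM.real (Dset κ c) := measureReal_nonneg
  have h7 := LAM_real_le_quarter κ c
  rw [integral_ff, abs_le]
  constructor
  · linarith
  · linarith

theorem bdd (m : ℕ) (x : ℕ → St) :
    BddAbove (Set.range fun f : FF => |(1 / (m : ℝ)) * ∑ i ∈ Finset.Icc 1 m, f.1 (coord i x)
      - ∫ y, f.1 y ∂LAM|) := by
  refine ⟨1, ?_⟩
  rintro _ ⟨f, rfl⟩
  exact bound f m x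

theorem map_restrict (m : ℕ) :
    (Measure.infinitePi fun _ : ℕ => LAM).map (fun (x : ℕ → St) (i : Fin m) => x i) =
      Measure.pi fun _ : Fin m => LAM := by
  symm
  apply Measure.pi_eq
  intro s hs
  have hmeas : Measurable fun (x : ℕ → St) (i : Fin m) => x i := by fun_prop
  rw [Measure.map_apply hmeas (MeasurableSet.univ_pi hs)]
  let t : ℕ → Set St := fun i => if h : i < m then s ⟨i, h⟩ else Set.univ
  have ht : ∀ i, MeasurableSet (t i) := by
    intro i
    simp only [t]
    split_ifs with h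
    · exact hs _
    · exact MeasurableSet.univ
  have h1 : (fun (x : ℕ → St) (i : Fin m) => x i) ⁻¹' Set.univ.pi s =
      Set.pi (Finset.range m : Set ℕ) t := by
    ext x
    simp only [Set.mem_preimage, Set.mem_pi, Set.mem_univ, true_implies, Finset.coe_range,
      Set.mem_Iio, t]
    constructor
    · intro h i hi
      rw [dif_pos hi]
      exact h ⟨i, hi⟩
    · intro h i
      have := h i.1 i.2
      rwa [dif_pos i.2] at this
  rw [h1, Measure.infinitePi_pi _ fun i _ => ht i, ← Fin.prod_univ_eq_prod_range]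
  refine Finset.prod_congr rfl fun i _ => ?_
  simp only [t]
  rw [dif_pos i.2]

theorem ucem_iid : UCEM FF LAM (Measure.infinitePi fun _ : ℕ => LAM) := by
  intro ε hε
  refine tendsto_of_tendsto_of_tendsto_of_le_of_le tendsto_const_nhds (iid_ucem ε hε)
    (fun m => zero_le) fun m => ?_
  have hmeas : Measurable fun (x : ℕ → St) (i : Fin m) => x i := by fun_prop
  have h1 : {x : ℕ → St | ε < dev FF LAM m x} ⊆ (fun (x : ℕ → St) (i : Fin m) => x i) ⁻¹'
      {x : Fin m → St | ∃ f ∈ FF,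
          ε < |(1 / (m : ℝ)) * ∑ i : Fin m, f (x i) - ∫ y, f y ∂LAM|} := by
    intro x hx
    rw [Set.mem_ofPred_eq] at hx
    have : Nonempty FF := ⟨⟨ff 0 0, 0, 0, rfl⟩⟩
    obtain ⟨f, hf⟩ := exists_lt_of_lt_ciSup hx
    refine ⟨f.1, f.2, ?_⟩
    have h2 : ∑ i ∈ Finset.Icc 1 m, f.1 (coord i x) = ∑ i : Fin m, f.1 (x i) := by
      rw [Fin.sum_univ_eq_sum_range (fun i => f.1 (x i)) m]
      exact sum_coord f.1 m x
    rw [h2] at hf
    exact hf
  calc q FF LAM m ε (Measure.infinitePi fun _ : ℕ => LAM)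
      ≤ (Measure.infinitePi fun _ : ℕ => LAM) ((fun (x : ℕ → St) (i : Fin m) => x i) ⁻¹'
      {x : Fin m → St | ∃ f ∈ FF,
          ε < |(1 / (m : ℝ)) * ∑ i : Fin m, f (x i) - ∫ y, f y ∂LAM|}) := measure_mono h1
    _ ≤ ((Measure.infinitePi fun _ : ℕ => LAM).map (fun (x : ℕ → St) (i : Fin m) => x i))
      {x : Fin m → St | ∃ f ∈ FF,
          ε < |(1 / (m : ℝ)) * ∑ i : Fin m, f (x i) - ∫ y, f y ∂LAM|} :=
        Measure.le_map_apply hmeas.aemeasurable _
    _ = _ := by rw [map_restrict]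

theorem alpha_le (k : ℕ) : alpha (walkLaw LAM STEP) k ≤ (1 / 2) ^ k := by
  apply csSup_le
  · exact ⟨_, 1, ∅, ∅, le_rfl, @MeasurableSet.empty _ (past St 1),
      @MeasurableSet.empty _ (future St (1 + k)), rfl⟩
  · rintro a ⟨j, A, B, hj, hA, hB, rfl⟩
    have h1 : past St j ≤ ⨆ (i : ℕ) (_ : i ≤ j - 1),
        MeasurableSpace.comap (fun ω : ℕ → St => ω i) inferInstance := by
      refine iSup₂_le fun i hi => ?_
      exact le_iSup₂_of_le (i - 1) (by omega) le_rfl
    have h2 : future St (j + k) ≤ ⨆ (i : ℕ) (_ : j - 1 + k ≤ i),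
        MeasurableSpace.comap (fun ω : ℕ → St => ω i) inferInstance := by
      refine iSup₂_le fun i hi => ?_
      exact le_iSup₂_of_le (i - 1) (by omega) le_rfl
    exact walkLaw_mixing LAM STEP LAM_inv (j - 1) k ((1 / 2 : ℝ) ^ k) (mix_all (j - 1) k) A B
      (h1 A hA) (h2 B hB)

theorem fails (κ : ℕ) (ε : ℝ) (hε : ε < 1 - 1 / ((hor κ : ℕ) : ℝ)) :
    q FF LAM (hor κ) ε (walkLaw LAM STEP) = 1 := by
  refine le_antisymm prob_le_one ?_
  unfold q
  set E := {x : ℕ → St | ε < dev FF LAM (hor κ) x} with hE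
  have h1 : base LAM STEP (Lib_helper83.walk ⁻¹' E) ≤ walkLaw LAM STEP E :=
    Measure.le_map_apply measurable_walk.aemeasurable E
  refine le_trans ?_ h1
  have h2 : ∀ᵐ ω ∂(base LAM STEP), ω ∈ Lib_helper83.walk ⁻¹' E := by
    filter_upwards [ae_steps κ] with ω hω
    choose ab hab using hω
    let c : Idx κ := (ω.1 κ, fun i => ab i)
    show ε < dev FF LAM (hor κ) (Lib_helper83.walk ω)
    refine lt_of_lt_of_le ?_ (le_ciSup (bdd (hor κ) (Lib_helper83.walk ω)) ⟨ff κ c, κ, c, rfl⟩)
    have h3 : ∀ j ∈ Finset.range (hor κ), ff κ c (Lib_helper83.walk ω j) = 1 := by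
      intro j hj
      have hj' := Finset.mem_range.mp hj
      have h4 : Lib_helper83.walk ω j κ = traj κ c ⟨j, hj'⟩ := by
        unfold Lib_helper83.walk traj
        rw [Pi.add_apply, Finset.sum_apply]
        simp only [c]
        congr 1
        have h5 : ∀ i : Fin (hor κ), stepMap (2 * hor κ) (pr κ) (ab i) = ω.2 i κ :=
          fun i => hab i
        simp_rw [h5]
        refine Finset.sum_bij' (fun i hi => ⟨i, lt_trans (Finset.mem_range.mp hi) hj'⟩)
          (fun i _ => (i : ℕ)) ?_ ?_ ?_ ?_ ?_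
        · intro i hi
          simp only [Finset.mem_filter, Finset.mem_univ, true_and]
          exact Finset.mem_range.mp hi
        · intro i hi
          simp only [Finset.mem_filter, Finset.mem_univ, true_and] at hi
          exact Finset.mem_range.mpr hi
        · intro i hi; rfl
        · intro i hi; rfl
        · intro i hi; rfl
      have h6 : Lib_helper83.walk ω j ∈ Dset κ c := by
        unfold Dset Cset
        simp only [Set.mem_ofPred_eq]
        rw [h4]
        exact Finset.mem_image_of_mem _ (Finset.mem_univ _)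
      unfold ff
      rw [if_pos h6]
    have h8 : ∑ i ∈ Finset.Icc 1 (hor κ), ff κ c (coord i (Lib_helper83.walk ω)) = hor κ := by
      have h9 : ∑ i ∈ Finset.Icc 1 (hor κ), ff κ c (coord i (Lib_helper83.walk ω)) =
          ∑ i ∈ Finset.range (hor κ), ff κ c (Lib_helper83.walk ω i) :=
        sum_coord (ff κ c) (hor κ) (Lib_helper83.walk ω)
      rw [h9, Finset.sum_congr rfl h3, Finset.sum_const, Finset.card_range, nsmul_eq_mul, mul_one]
    show ε < |(1 / ((hor κ : ℕ) : ℝ)) *
      ∑ i ∈ Finset.Icc 1 (hor κ), ff κ c (coord i (Lib_helper83.walk ω)) - ∫ y, ff κ c y ∂LAM|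
    have hh : (0 : ℝ) < hor κ := by
      have : 0 < hor κ := by unfold hor; omega
      exact_mod_cast this
    rw [h8, integral_ff, one_div_mul_cancel hh.ne']
    have h7 := LAM_real_le_inv κ c
    refine lt_of_lt_of_le ?_ (le_abs_self _)
    linarith
  have h3 : Lib_helper83.walk ⁻¹' E =ᵐ[base LAM STEP] (Set.univ : Set (St × (ℕ → St))) := by
    filter_upwards [h2] with ω hω
    exact propext ⟨fun _ => trivial, fun _ => hω⟩
  rw [measure_congr h3, measure_univ]

theorem result :
    ∃ (X : Type) (_ : AddCommGroup X) (_ : MeasurableSpace X) (P0 ν : Measure X)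
      (_ : IsProbabilityMeasure P0) (_ : IsProbabilityMeasure ν) (𝒟 : Set (Set X)),
      -- `P0` is translation invariant
      (∀ g : X, P0.map (fun x => x + g) = P0) ∧
      -- the process is stationary with marginal `P0`, and `α(k) ≤ 2^(-k)`
      IsProbabilityMeasure (walk P0 ν) ∧ Stationary (walk P0 ν) ∧
      (walk P0 ν).map (coord 1) = P0 ∧ (∀ k : ℕ, alpha (walk P0 ν) k ≤ (1 / 2) ^ k) ∧
      -- the family
      𝒟.Countable ∧ 𝒟.Infinite ∧ (∀ D ∈ 𝒟, MeasurableSet D) ∧
      -- uniform convergence for independent inputs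
      UCEM (indicators 𝒟) P0 (Measure.infinitePi fun _ : ℕ => P0) ∧
      -- and none for the process
      ∀ m : ℕ, 1 ≤ m → ∀ ε : ℝ, ε < 1 - 1 / (m : ℝ) → q (indicators 𝒟) P0 m ε (walk P0 ν) = 1 := by
  have hw : walk LAM STEP = walkLaw LAM STEP := rfl
  refine ⟨St, inferInstance, inferInstance, LAM, STEP, inferInstance, inferInstance, DD, LAM_inv,
    ?_, ?_, ?_, ?_, DD_countable, DD_infinite, ?_, ?_, ?_⟩
  · rw [hw]; infer_instance
  · exact walkLaw_stationary LAM STEP LAM_inv
  · rw [hw]; exact walkLaw_marginal LAM STEP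
  · rw [hw]; exact alpha_le
  · rintro D ⟨κ, c, rfl⟩
    exact measurableSet_Dset κ c
  · rw [indicators_DD]
    exact ucem_iid
  · intro m hm ε hε
    rw [indicators_DD, hw]
    have h1 : hor (m - 1) = m := by unfold hor; omega
    have h2 := fails (m - 1) ε
    rw [h1] at h2
    exact h2 hε

end Pool.Agent.Results.MP_c7dc48_pr.AlphaMixingWalk
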